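import Pool.Agent.H37.CPX.Targets

/-!
# Cutting planes of any depth: row FRU, the formula
-/

namespace Pool.Agent.H36.CPX

open Finset Pool.Agent.H37.CPX
open Pool.Agent.H1.LP (Clause)

/-- The variables: kind `0` are the bits `y i h`, kind `1` the selectors, kind `2` the chain. -/
abbrev VT (N q : ℕ) := Fin 3 × Fin N × Fin q

/-- the values of the variables at a pair -/
def vl {N q : ℕ} (y : PY N q) (x : PX N q) (t : VT N q) : Bool :=
  if t.1 = 0 then decide (y t.2.1 t.2.2 = 1) else
    if t.1 = 1 then decide (x t.2.1 = t.2.2) else decide (t.2.2 < x t.2.1)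

section Dec
variable {N q n : ℕ} (emb : VT N q ↪ Fin n)

open Classical in
/-- the inverse of the embedding -/
noncomputable def dec (v : Fin n) : Option (VT N q) :=
  if h : ∃ t, emb t = v then some h.choose else none

theorem dec_emb (t : VT N q) : dec emb (emb t) = some t := by
  have h : ∃ t', emb t' = emb t := ⟨t, rfl⟩
  unfold dec
  rw [dif_pos h]
  exact congrArg some (emb.injective h.choose_spec)

/-- the side of a variable -/
noncomputable def sd (v : Fin n) : Bool :=
  match dec emb v with
  | some t => !decide (t.1 = 0)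
  | none => true

/-- the value, first side -/
noncomputable def ff (v : Fin n) (y : PY N q) : Bool :=
  match dec emb v with
  | some t => decide (y t.2.1 t.2.2 = 1)
  | none => false

/-- the value, second side -/
noncomputable def gg (v : Fin n) (x : PX N q) : Bool :=
  match dec emb v with
  | some t => if t.1 = 1 then decide (x t.2.1 = t.2.2) else decide (t.2.2 < x t.2.1)
  | none => false

theorem asg_emb (y : PY N q) (x : PX N q) (t : VT N q) :
    asg (sd emb) (ff emb) (gg emb) y x (emb t) = vl y x t := by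
  unfold asg sd ff gg vl
  rw [dec_emb]
  by_cases h : t.1 = 0
  · simp [h]
  · simp [h]

end Dec

section Cl
variable {N m k w0 q n : ℕ} (s : Sy N m k w0) (emb : VT N q ↪ Fin n)

/-- bits -/
def bt (b : Bool) : ZMod 2 := if b = true then 1 else 0

theorem bt_decide (t : ZMod 2) (b : Bool) (h : decide (t = 1) = b) : t = bt b := by
  revert t b
  decide

/-- the elements of `S j` -/
noncomputable def te (j : Fin m) : Fin (k + 6) ↪o Fin N := (s.S j).orderEmbOfFin (s.card_S j)

theorem sum_te (j : Fin m) (z : Fin N → ZMod 2) : ∑ a, z (te s j a) = ∑ i ∈ s.S j, z i := by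
  have h : s.S j = Finset.univ.map (te s j).toEmbedding :=
    (Finset.map_orderEmbOfFin_univ (s.S j) (s.card_S j)).symm
  rw [h, Finset.sum_map]
  rfl

/-- the index type of the clauses -/
abbrev Ix (N m k q : ℕ) :=
  (Fin m × (Fin (k + 6) → Fin q) × (Fin (k + 6) → Bool)) ⊕ (Fin N × Fin (q + 1))

/-- the clauses of the equations -/
noncomputable def clA (j : Fin m) (h : Fin (k + 6) → Fin q) (b : Fin (k + 6) → Bool) :
    Clause n :=
  Finset.univ.image (fun a => (emb (1, te s j a, h a), false)) ∪
    Finset.univ.image (fun a => (emb (0, te s j a, h a), !(b a)))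

/-- a clause which is always true -/
noncomputable def clT (j : Fin m) (h : Fin (k + 6) → Fin q) : Clause n :=
  {(emb (1, te s j 0, h 0), false), (emb (1, te s j 0, h 0), true)}

/-- the clauses of the chain -/
noncomputable def clB (i : Fin N) (l : Fin (q + 1)) : Clause n :=
  (if h : 0 < (l : ℕ) then {(emb (2, i, ⟨l - 1, by omega⟩), false)} else ∅) ∪
    (if h : (l : ℕ) < q then {(emb (1, i, ⟨l, h⟩), true), (emb (2, i, ⟨l, h⟩), true)} else ∅)

open Classical in
/-- all clauses -/
noncomputable def cl : Ix N m k q → Clause n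
  | Sum.inl (j, h, b) => if ∑ a, bt (b a) = s.b j then clT s emb j h else clA s emb j h b
  | Sum.inr (i, l) => clB emb i l

theorem card_cl (t : Ix N m k q) : (cl s emb t).card ≤ 2 * (k + 6) := by
  rcases t with ⟨j, h, b⟩ | ⟨i, l⟩
  · simp only [cl]
    split_ifs with hs
    · unfold clT
      exact (Finset.card_le_two).trans (by omega)
    · unfold clA
      refine (Finset.card_union_le _ _).trans ?_
      have h1 := Finset.card_image_le (s := (Finset.univ : Finset (Fin (k + 6))))
        (f := fun a => (emb (1, te s j a, h a), false))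
      have h2 := Finset.card_image_le (s := (Finset.univ : Finset (Fin (k + 6))))
        (f := fun a => (emb (0, te s j a, h a), !(b a)))
      rw [Finset.card_univ, Fintype.card_fin] at h1 h2
      omega
  · simp only [cl, clB]
    refine (Finset.card_union_le _ _).trans ?_
    have h1 : (if h : 0 < (l : ℕ) then
        ({(emb (2, i, ⟨l - 1, by omega⟩), false)} : Clause n) else ∅).card ≤ 1 := by
      split_ifs <;> simp
    have h2 : (if h : (l : ℕ) < q then
        ({(emb (1, i, ⟨l, h⟩), true), (emb (2, i, ⟨l, h⟩), true)} : Clause n) else ∅).card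
          ≤ 2 := by
      split_ifs
      · exact Finset.card_le_two
      · simp
    omega

theorem mem_clB_pred {i : Fin N} {l : Fin (q + 1)} {p : Fin n × Bool} (hp : p ∈ clB emb i l) :
    (∃ h : 0 < (l : ℕ), p = (emb (2, i, ⟨l - 1, by omega⟩), false)) ∨
      ∃ h : (l : ℕ) < q, p = (emb (1, i, ⟨l, h⟩), true) ∨ p = (emb (2, i, ⟨l, h⟩), true) := by
  unfold clB at hp
  rcases Finset.mem_union.1 hp with h1 | h1
  · split_ifs at h1 with h2
    · exact Or.inl ⟨h2, by simpa using h1⟩
    · simp at h1
  · split_ifs at h1 with h2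
    · exact Or.inr ⟨h2, by simpa using h1⟩
    · simp at h1

/-- the chain forces a selector -/
theorem chain (v : Fin n → Bool) (i : Fin N) (hq : 1 ≤ q)
    (hsat : ∀ l, (clB emb i l).Sat v) : ∃ h : Fin q, v (emb (1, i, h)) = true := by
  by_contra hno
  push Not at hno
  have hind : ∀ (l : ℕ) (hl : l < q), v (emb (2, i, ⟨l, hl⟩)) = true := by
    intro l
    induction l with
    | zero =>
      intro hl
      obtain ⟨p, hp, hv⟩ := hsat ⟨0, by omega⟩
      rcases mem_clB_pred emb hp with ⟨h1, -⟩ | ⟨h1, rfl | rfl⟩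
      · simp at h1
      · exact absurd hv (hno _)
      · exact hv
    | succ l ih =>
      intro hl
      obtain ⟨p, hp, hv⟩ := hsat ⟨l + 1, by omega⟩
      rcases mem_clB_pred emb hp with ⟨h1, rfl⟩ | ⟨h1, rfl | rfl⟩
      · have h2 := ih (by omega)
        simp only [Nat.add_sub_cancel] at hv
        rw [h2] at hv
        exact absurd hv (by decide)
      · exact absurd hv (hno _)
      · exact hv
  obtain ⟨p, hp, hv⟩ := hsat ⟨q, by omega⟩
  rcases mem_clB_pred emb hp with ⟨h1, rfl⟩ | ⟨h1, -⟩
  · have h2 := hind (q - 1) (by omega)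
    simp only at hv
    rw [h2] at hv
    exact absurd hv (by decide)
  · simp at h1

/-- the formula is not satisfiable -/
theorem unsat (hq : 1 ≤ q) (hun : ∀ z : Fin N → ZMod 2, ∃ j, ∑ i ∈ s.S j, z i ≠ s.b j)
    (v : Fin n → Bool) : ∃ t, ¬ (cl s emb t).Sat v := by
  by_contra hall
  push Not at hall
  have hch : ∀ i : Fin N, ∃ h : Fin q, v (emb (1, i, h)) = true :=
    fun i => chain emb v i hq (fun l => hall (Sum.inr (i, l)))
  choose h hh using hch
  obtain ⟨j, hj⟩ := hun (fun i => bt (v (emb (0, i, h i))))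
  rw [← sum_te] at hj
  have h1 := hall (Sum.inl (j, fun a => h (te s j a),
    fun a => v (emb (0, te s j a, h (te s j a)))))
  simp only [cl] at h1
  rw [if_neg hj] at h1
  obtain ⟨p, hp, hv⟩ := h1
  unfold clA at hp
  rcases Finset.mem_union.1 hp with h2 | h2
  · obtain ⟨a, -, rfl⟩ := Finset.mem_image.1 h2
    simp only at hv
    rw [hh] at hv
    exact absurd hv (by decide)
  · obtain ⟨a, -, rfl⟩ := Finset.mem_image.1 h2
    simp only at hv
    exact Bool.not_ne_self _ hv.symm

/-- the clauses of the chain are true at the pairs -/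
theorem chain_asg (y : PY N q) (x : PX N q) (i : Fin N) (l : Fin (q + 1)) :
    (clB emb i l).Sat (asg (sd emb) (ff emb) (gg emb) y x) := by
  have hx := (x i).2
  have mem1 : ∀ h : 0 < (l : ℕ), (emb (2, i, ⟨l - 1, by omega⟩), false) ∈ clB emb i l := by
    intro h
    unfold clB
    rw [dif_pos h]
    exact Finset.mem_union_left _ (by simp)
  have mem2 : ∀ h : (l : ℕ) < q, (emb (1, i, ⟨l, h⟩), true) ∈ clB emb i l ∧
      (emb (2, i, ⟨l, h⟩), true) ∈ clB emb i l := by
    intro h
    unfold clB
    rw [dif_pos h]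
    exact ⟨Finset.mem_union_right _ (by simp), Finset.mem_union_right _ (by simp)⟩
  rcases lt_trichotomy (l : ℕ) (x i : ℕ) with h1 | h1 | h1
  · have hl : (l : ℕ) < q := by omega
    refine ⟨_, (mem2 hl).2, ?_⟩
    simp only
    rw [asg_emb]
    simp only [vl]
    simp [Fin.lt_def, h1]
  · have hl : (l : ℕ) < q := by omega
    refine ⟨_, (mem2 hl).1, ?_⟩
    simp only
    rw [asg_emb]
    simp only [vl]
    simp [h1]
  · have hl : 0 < (l : ℕ) := by omega
    refine ⟨_, mem1 hl, ?_⟩
    simp only
    rw [asg_emb]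
    simp only [vl]
    simp [Fin.le_def]
    omega

theorem clT_sat (j : Fin m) (h : Fin (k + 6) → Fin q) (v : Fin n → Bool) :
    (clT s emb j h).Sat v := by
  cases hv : v (emb (1, te s j 0, h 0)) with
  | false => exact ⟨_, by unfold clT; exact Finset.mem_insert_self _ _, hv⟩
  | true =>
    exact ⟨_, by unfold clT; exact Finset.mem_insert_of_mem (Finset.mem_singleton_self _), hv⟩

theorem clA_viol (j : Fin m) (h : Fin (k + 6) → Fin q) (b : Fin (k + 6) → Bool)
    (hb : ∑ a, bt (b a) ≠ s.b j) (y : PY N q) (x : PX N q)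
    (hv : ¬ (clA s emb j h b).Sat (asg (sd emb) (ff emb) (gg emb) y x)) :
    s.v j (pt x y) = -1 := by
  have h1 : ∀ a, x (te s j a) = h a := by
    intro a
    by_contra hne
    apply hv
    refine ⟨(emb (1, te s j a, h a), false),
      Finset.mem_union_left _ (Finset.mem_image_of_mem _ (Finset.mem_univ a)), ?_⟩
    simp only
    rw [asg_emb]
    simp [vl, hne]
  have h2 : ∀ a, y (te s j a) (h a) = bt (b a) := by
    intro a
    apply bt_decide
    by_contra hne
    apply hv
    refine ⟨(emb (0, te s j a, h a), !(b a)),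
      Finset.mem_union_right _ (Finset.mem_image_of_mem _ (Finset.mem_univ a)), ?_⟩
    simp only
    rw [asg_emb]
    simp only [vl, if_true]
    exact Bool.eq_not_of_ne hne
  have h3 : ∑ i ∈ s.S j, pt x y i = ∑ a, bt (b a) := by
    rw [← sum_te]
    refine Finset.sum_congr rfl fun a _ => ?_
    unfold pt
    rw [h1, h2]
  unfold Sy.v sgn
  rw [h3, if_neg]
  intro h0
  apply hb
  have key : ∀ a b : ZMod 2, b + a = 0 → a = b := by decide
  exact key _ _ h0

end Cl

theorem pf_FRU : S_FRU := by
  intro N m k w0 q n s hq hn hun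
  have hcard : Fintype.card (VT N q) ≤ Fintype.card (Fin n) := by
    simp only [Fintype.card_prod, Fintype.card_fin]
    exact hn
  obtain ⟨emb⟩ := Function.Embedding.nonempty_of_card_le hcard
  have hIx : Fintype.card (Ix N m k q) = m * (2 * q) ^ (k + 6) + N * (q + 1) := by
    simp only [Fintype.card_sum, Fintype.card_prod, Fintype.card_fin, Fintype.card_fun,
      Fintype.card_bool, mul_pow]
    ring
  have e : Fin (Fintype.card (Ix N m k q)) ≃ Ix N m k q := (Fintype.equivFin _).symm
  refine ⟨Fintype.card (Ix N m k q), fun i => cl s emb (e i), sd emb, ff emb, gg emb,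
    hIx.le, fun i => card_cl s emb _, ?_, ?_⟩
  · intro x
    obtain ⟨t, ht⟩ := unsat s emb hq hun x
    exact ⟨e.symm t, by simpa using ht⟩
  · intro i
    obtain ⟨j0, -⟩ := hun 0
    change ∃ j, ∀ y x, ¬ (cl s emb (e i)).Sat (asg (sd emb) (ff emb) (gg emb) y x) →
      s.v j (pt x y) = -1
    rcases e i with ⟨j, h, b⟩ | ⟨i', l⟩
    · refine ⟨j, fun y x hv => ?_⟩
      simp only [cl] at hv
      split_ifs at hv with hs
      · exact absurd (clT_sat s emb j h _) hv
      · exact clA_viol s emb j h b hs y x hv
    · exact ⟨j0, fun y x hv => absurd (chain_asg emb y x i' l) hv⟩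

end Pool.Agent.H36.CPX
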