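import Pool.Agent.H37.CPX.Targets

/-!
# Cutting planes of any depth: row STX, all sets on the first side
-/

namespace Pool.Agent.H36.CPX

open Finset Pool.Agent.H37.CPX

theorem pp_weak {N : ℕ} {QX QY : Type} {Tri : (Fin N → QX) → (Fin N → QY) → Prop}
    {D : (Fin N → QX) → (Fin N → QY) → ℝ} {cl : Finset (Fin N → QY) → Prop}
    {A : Finset (Fin N → QX)} {a ka M a' ka' M' : ℝ} (h : PP Tri D cl A a ka M)
    (ha : a ≤ a') (hk : ka ≤ ka') (hM : M ≤ M') : PP Tri D cl A a' ka' M' := by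
  obtain ⟨E, hE, hEa, hB⟩ := h
  refine ⟨E, hE, hEa.trans ha, fun B hcl => ?_⟩
  obtain ⟨E', hE', hEk, hF⟩ := hB B hcl
  exact ⟨E', hE', hEk.trans (mul_le_mul_of_nonneg_right hk (Real.sqrt_nonneg _)),
    fun F hFA G hGB h1 h2 h3 => (hF F hFA G hGB h1 h2 h3).trans hM⟩

theorem pp_full {N : ℕ} {QX QY : Type} {Tri : (Fin N → QX) → (Fin N → QY) → Prop}
    {D : (Fin N → QX) → (Fin N → QY) → ℝ} {cl : Finset (Fin N → QY) → Prop}
    {A : Finset (Fin N → QX)} {a ka M : ℝ} (ha : (A.card : ℝ) ≤ a) (hk : 0 ≤ ka) (hM : 0 ≤ M) :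
    PP Tri D cl A a ka M := by
  refine ⟨A, Finset.Subset.refl _, ha, fun B _ => ⟨∅, Finset.empty_subset _, ?_, ?_⟩⟩
  · rw [Finset.card_empty, Nat.cast_zero]
    exact mul_nonneg hk (Real.sqrt_nonneg _)
  · intro F hF G _ hd _ _
    have h0 : F = ∅ := by
      rw [Finset.eq_empty_iff_forall_notMem]
      intro x hx
      exact Finset.disjoint_left.1 hd hx (hF hx)
    rw [h0, Finset.sum_empty, abs_zero]
    exact hM

theorem flat_mono {N : ℕ} {Q : Type} {T : Finset (Fin N)} {A B : Finset (Fin N → Q)}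
    (h : Flat T A) (hB : B ⊆ A) : Flat T B :=
  fun x hx x' hx' i hi => h x (hB hx) x' (hB hx') i hi

theorem cyl_sub {N : ℕ} {Q : Type} (U : Finset (Fin N)) (u : U → Q) (A : Finset (Fin N → Q)) :
    cyl U u A ⊆ A := by
  intro x hx
  unfold cyl at hx
  exact ((@Finset.mem_filter _ _ (_) _ _).1 hx).1

theorem flat_cyl {N : ℕ} {Q : Type} (U : Finset (Fin N)) (u : U → Q) (A : Finset (Fin N → Q)) :
    Flat U (cyl U u A) := by
  intro x hx x' hx' i hi
  unfold cyl at hx hx'
  have h1 := ((@Finset.mem_filter _ _ (_) _ _).1 hx).2 ⟨i, hi⟩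
  have h2 := ((@Finset.mem_filter _ _ (_) _ _).1 hx').2 ⟨i, hi⟩
  exact h1.trans h2.symm

theorem card_QX (P : ℕ) : (Fintype.card (Fin (P ^ 16)) : ℝ) = (P : ℝ) ^ 16 := by
  rw [Fintype.card_fin, Nat.cast_pow]

theorem card_QY (P : ℕ) : (Fintype.card (Fin (P ^ 16) → ZMod 2) : ℝ) = (2 : ℝ) ^ (P ^ 16) := by
  rw [Fintype.card_fun, ZMod.card, Fintype.card_fin, Nat.cast_pow, Nat.cast_ofNat]

/-- the step for one set `U` -/
theorem stepU (hV : S_CV) (hL : S_CLO) (hW : S_WID) (hJ : S_JEN)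
    (N m k w0 P z lam : ℕ) (s : Sy N m k w0) (u : PX N (P ^ 16) → ℝ)
    (w : PY N (P ^ 16) → ℝ) (Xs : Finset (PX N (P ^ 16))) (Ys : Finset (PY N (P ^ 16)))
    (st : St N m) (CU : Finset (PX N (P ^ 16))) (hN : NumC N m k w0 P z lam) (hok : st.Ok s z)
    (ih : IH s P z u w Xs Ys (st.mea s z)) (hX : CU ⊆ Xs) (hfl : Flat (st.T s) CU)
    (U : Finset (Fin N)) (hU : U.Nonempty) (hUT : Disjoint U (st.T s)) :
    PP (Tr u w) (DD s P) (clF Ys (st.T s)) CU
      (st.kx s P z * ((∑ v : U → Fin (P ^ 16), Real.sqrt ((cyl U v CU).card)) *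
        (1 / (4 * (P : ℝ) ^ 7)) ^ U.card))
      (st.ky s P z * (1 / (64 * (N : ℝ) * z)) ^ U.card)
      (st.mm s P z * (1 / (8 * (N : ℝ))) ^ U.card) := by
  have hsub0 : st.T0 ⊆ st.T0 ∪ U := Finset.subset_union_left
  obtain ⟨J', hJJ, hJc, hJn, hJcl⟩ := hL N m k w0 s (st.T0 ∪ U) st.J
    (hok.h1.trans (Finset.card_le_card hsub0))
    ((Finset.card_le_card (Finset.sdiff_subset_sdiff (Finset.Subset.refl _) hsub0)).trans hok.h2)
  obtain ⟨st', hst'⟩ : ∃ st' : St N m, st' = ⟨st.T0 ∪ U, J', st.uX + U.card, st.uY, st.nl, st.nh⟩ :=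
    ⟨_, rfl⟩
  have hT' : st'.T s = (st.T0 ∪ U) ∪ s.Nb J' := by rw [hst']; rfl
  have hTU : st.T s ∪ U ⊆ st'.T s := by
    rw [hT']
    intro i hi
    rcases Finset.mem_union.1 hi with h1 | h1
    · rcases Finset.mem_union.1 h1 with h2 | h2
      · exact Finset.mem_union_left _ (Finset.mem_union_left _ h2)
      · exact Finset.mem_union_right _ (Finset.biUnion_subset_biUnion_of_subset_left _ hJJ h2)
    · exact Finset.mem_union_left _ (Finset.mem_union_right _ h1)
  have hTT : st.T s ⊆ st'.T s := Finset.subset_union_left.trans hTU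
  have hUT' : U ⊆ st'.T s := Finset.subset_union_right.trans hTU
  have hcard : (st.T s).card + U.card ≤ (st'.T s).card := by
    rw [← Finset.card_union_of_disjoint hUT.symm]
    exact Finset.card_le_card hTU
  have hN' : (st'.T s).card ≤ N := by
    have := Finset.card_le_univ (st'.T s)
    rwa [Fintype.card_fin] at this
  have hUc : 0 < U.card := hU.card_pos
  have hok' : st'.Ok s z := by
    rw [hst']
    refine ⟨hJc, hJn, ?_, hJcl, hok.h5⟩
    have h1 := Finset.card_union_le st.T0 U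
    have h2 := hok.h3
    simp only
    omega
  have hmea : st'.mea s z < st.mea s z := by
    have h1 : st'.nh = st.nh := by rw [hst']
    have h2 : st'.nl = st.nl := by rw [hst']
    unfold St.mea
    rw [h1, h2]
    omega
  -- the numbers
  obtain ⟨n0, -, -, n3, -, n5, n6, n7, -, n9, -, -, -, n13, -, -, -, n17, -, -⟩ :=
    hW N m k w0 P z (st.T s).card (st'.T s).card U.card st.uX st.uY st.nl st.nh hN.hN hN.hz
      hN.hP hN.hPe (by omega) hN'
  obtain ⟨-, -, -, -, -, q5, q6, q7, -⟩ :=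
    hW N m k w0 P z (st'.T s).card (st'.T s).card 0 (st.uX + U.card) st.uY st.nl st.nh hN.hN
      hN.hz hN.hP hN.hPe le_rfl hN'
  have hkx' : st'.kx s P z = kX N P z (st'.T s).card (st.uX + U.card) st.uY st.nl st.nh := by
    unfold St.kx
    rw [hst']
  have hky' : st'.ky s P z = kY N P z (st'.T s).card (st.uX + U.card) st.uY st.nl st.nh := by
    unfold St.ky
    rw [hst']
  have hmm' : st'.mm s P z = mM N m k w0 P z (st'.T s).card st.nl st.nh := by
    unfold St.mm
    rw [hst']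
  have hcyl : ∀ v : (st'.T s) → Fin (P ^ 16),
      PP (Tr u w) (DD s P) (clF Ys (st'.T s)) (cyl (st'.T s) v CU)
        (st'.kx s P z * Real.sqrt (cyl (st'.T s) v CU).card) (st'.ky s P z) (st'.mm s P z) :=
    fun v => ih st' hok' hmea _ ((cyl_sub _ _ _).trans hX) (flat_cyl _ _ _)
  have hcv := hV N (Fin (P ^ 16)) (Fin (P ^ 16) → ZMod 2) (bb P) (Tr u w) (DD s P) Ys
    (st.T s) (st'.T s) CU (fun v => st'.kx s P z * Real.sqrt (cyl (st'.T s) v CU).card)
    (st'.ky s P z) (st'.mm s P z) n3.le (by rw [n0, card_QY]) hTT hfl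
    (by rw [hky']; exact q6.le) (by rw [hmm']; exact q7.le) hcyl
  rw [card_QX, card_QY] at hcv
  have hd : (st'.T s \ st.T s).card = (st'.T s).card - (st.T s).card :=
    Finset.card_sdiff_of_subset hTT
  have hd2 : (st'.T s \ (st.T s ∪ U)).card = (st'.T s).card - ((st.T s).card + U.card) := by
    rw [Finset.card_sdiff_of_subset hTU, Finset.card_union_of_disjoint hUT.symm]
  rw [hd] at hcv
  refine pp_weak hcv ?_ ?_ ?_
  · have hj := (hJ N (Fin (P ^ 16)) ((P : ℝ) ^ 8) (st.T s) (st'.T s) U CU (by positivity)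
      (by rw [card_QX]; ring) hTT hfl).2.2.2.2 hUT'
    rw [hd2] at hj
    rw [← Finset.mul_sum]
    have hk' : 0 < st'.kx s P z := by rw [hkx']; exact q5
    calc st'.kx s P z * ∑ v : (st'.T s) → Fin (P ^ 16), Real.sqrt (cyl (st'.T s) v CU).card
        ≤ st'.kx s P z * (((P : ℝ) ^ 8) ^ ((st'.T s).card - ((st.T s).card + U.card)) *
          ∑ v : U → Fin (P ^ 16), Real.sqrt ((cyl U v CU).card)) :=
          mul_le_mul_of_nonneg_left hj hk'.le
      _ = (kX N P z (st'.T s).card (st.uX + U.card) st.uY st.nl st.nh *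
          ((P : ℝ) ^ 8) ^ ((st'.T s).card - ((st.T s).card + U.card))) *
          ∑ v : U → Fin (P ^ 16), Real.sqrt ((cyl U v CU).card) := by
          rw [hkx', mul_assoc]
      _ = _ := by
          rw [n9 hcard]
          unfold St.kx
          ring
  · rw [hky', n13]
    exact le_rfl
  · rw [hmm', n17]
    unfold St.mm
    refine mul_le_mul_of_nonneg_left ?_ n7.le
    refine pow_le_pow_of_le_one (by positivity) ?_ (by omega)
    have hN1 : (1 : ℝ) ≤ N := by exact_mod_cast hN.hN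
    rw [div_le_one (by positivity)]
    linarith

theorem pf_STX (hG : S_GRD) (hU : S_CU) (hV : S_CV) (hL : S_CLO) (hW : S_WID) (hS : S_SUMU)
    (hJ : S_JEN) : S_STX := by
  classical
  intro N m k w0 P z lam s u w Xs Ys st A hN hok ih hAX hfl hR
  have hN' : (st.T s).card ≤ N := by
    have := Finset.card_le_univ (st.T s)
    rwa [Fintype.card_fin] at this
  obtain ⟨-, -, -, -, -, n5, n6, n7, -⟩ :=
    hW N m k w0 P z (st.T s).card (st.T s).card 0 st.uX st.uY st.nl st.nh hN.hN hN.hz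
      hN.hP hN.hPe le_rfl hN'
  have hkx : 0 < st.kx s P z := n5
  have hky : 0 < st.ky s P z := n6
  have hmm : 0 < st.mm s P z := n7
  have hP0 : (0 : ℝ) < P := by
    have : 0 < P := by have := hN.hP; omega
    exact_mod_cast this
  have hz1 : (1 : ℝ) ≤ z := by exact_mod_cast hN.hz
  obtain ⟨C, R, hCA, hRA, hCU, hCC, hCR, hcov, hspr, hsum⟩ :=
    hG N (Fin (P ^ 16)) ((P : ℝ) ^ 7) (st.T s) A (by positivity)
  have hspr' : Spr ((P : ℝ) ^ 14) 1 (st.T s) R := by
    have e : ((P : ℝ) ^ 7) ^ 2 = (P : ℝ) ^ 14 := by ring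
    rwa [e] at hspr
  have hz32 : 0 ≤ 1 - 1 / (32 * (z : ℝ)) := by
    rw [sub_nonneg, div_le_one (by positivity)]
    linarith
  -- the rest
  have hPR : PP (Tr u w) (DD s P) (clF Ys (st.T s)) R (st.kx s P z * Real.sqrt R.card)
        (st.ky s P z * (1 - 1 / (32 * z))) (3 / 4 * st.mm s P z) := by
    by_cases hlt : st.kx s P z * Real.sqrt R.card < R.card
    · exact hR R hRA hspr' hlt
    · exact pp_full (not_lt.1 hlt) (mul_nonneg hky.le hz32) (by positivity)
  -- the union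
  obtain ⟨I, hI⟩ : ∃ I : Finset (Finset (Fin N)),
      I = univ.filter (fun U => U.Nonempty ∧ Disjoint U (st.T s)) := ⟨_, rfl⟩
  have hmemI : ∀ U, U ∈ I ↔ U.Nonempty ∧ Disjoint U (st.T s) := by
    intro U
    rw [hI]
    simp
  obtain ⟨AA, hAA⟩ : ∃ AA : Option (Finset (Fin N)) → Finset (PX N (P ^ 16)),
      AA = fun o => match o with | none => R | some U => C U := ⟨_, rfl⟩
  obtain ⟨aa, haa⟩ : ∃ aa : Option (Finset (Fin N)) → ℝ,
      aa = fun o => match o with
        | none => st.kx s P z * Real.sqrt R.card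
        | some U => st.kx s P z *
          ((∑ v : U → Fin (P ^ 16), Real.sqrt ((cyl U v (C U)).card)) *
            (1 / (4 * (P : ℝ) ^ 7)) ^ U.card) := ⟨_, rfl⟩
  obtain ⟨kk, hkk⟩ : ∃ kk : Option (Finset (Fin N)) → ℝ,
      kk = fun o => match o with
        | none => st.ky s P z * (1 - 1 / (32 * z))
        | some U => st.ky s P z * (1 / (64 * (N : ℝ) * z)) ^ U.card := ⟨_, rfl⟩
  obtain ⟨mm, hmme⟩ : ∃ mm : Option (Finset (Fin N)) → ℝ,
      mm = fun o => match o with
        | none => 3 / 4 * st.mm s P z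
        | some U => st.mm s P z * (1 / (8 * (N : ℝ))) ^ U.card := ⟨_, rfl⟩
  have hun := hU N (Fin (P ^ 16)) (Fin (P ^ 16) → ZMod 2) (Tr u w) (DD s P)
    (clF Ys (st.T s)) (Option (Finset (Fin N))) (Finset.insertNone I) AA aa kk mm ?_ ?_
  rotate_left
  · intro i _ j _ hij
    rcases i with _ | U <;> rcases j with _ | U'
    · exact absurd rfl hij
    · rw [hAA]
      exact (hCR U').symm
    · rw [hAA]
      exact hCR U
    · rw [hAA]
      exact hCC U U' (fun h => hij (by rw [h]))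
  · intro i hi
    rcases i with _ | U
    · rw [hAA, haa, hkk, hmme]
      exact hPR
    · rw [hAA, haa, hkk, hmme]
      obtain ⟨h1, h2⟩ := (hmemI U).1 (Finset.some_mem_insertNone.1 hi)
      exact stepU hV hL hW hJ N m k w0 P z lam s u w Xs Ys st (C U) hN hok ih
        ((hCA U).trans hAX) (flat_mono hfl (hCA U)) U h1 h2
  have hbU : ∀ (inst : DecidableEq (PX N (P ^ 16))),
      @Finset.biUnion _ _ inst (Finset.insertNone I) AA = A := by
    intro inst
    ext x
    rw [Finset.mem_biUnion]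
    constructor
    · rintro ⟨o, -, hx⟩
      rw [hAA] at hx
      rcases o with _ | U
      · exact hRA hx
      · exact hCA U hx
    · intro hx
      rcases hcov x hx with h1 | ⟨U, h1⟩
      · refine ⟨none, Finset.none_mem_insertNone, ?_⟩
        rw [hAA]
        exact h1
      · refine ⟨some U, Finset.some_mem_insertNone.2 ((hmemI U).2 (hCU U ⟨x, h1⟩)), ?_⟩
        rw [hAA]
        exact h1
  rw [hbU, Finset.sum_insertNone, Finset.sum_insertNone, Finset.sum_insertNone] at hun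
  have hIsub : I ⊆ univ.filter (fun U : Finset (Fin N) => U.Nonempty) := by
    intro U hUI
    rw [Finset.mem_filter]
    exact ⟨Finset.mem_univ _, ((hmemI U).1 hUI).1⟩
  obtain ⟨hs1, hs2⟩ := hS N z hN.hN hN.hz
  refine pp_weak hun ?_ ?_ ?_
  · rw [haa]
    simp only
    rw [← Finset.mul_sum, ← mul_add]
    refine mul_le_mul_of_nonneg_left ?_ hkx.le
    have h1 : ∑ U ∈ I, (∑ v : U → Fin (P ^ 16), Real.sqrt ((cyl U v (C U)).card)) *
        (1 / (4 * (P : ℝ) ^ 7)) ^ U.card ≤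
        ∑ U : Finset (Fin N), (∑ v : U → Fin (P ^ 16), Real.sqrt ((cyl U v (C U)).card)) *
        (1 / (4 * (P : ℝ) ^ 7)) ^ U.card := by
      refine Finset.sum_le_sum_of_subset_of_nonneg (Finset.subset_univ _) ?_
      intro U _ _
      exact mul_nonneg (Finset.sum_nonneg fun _ _ => Real.sqrt_nonneg _) (by positivity)
    have h2 : 0 ≤ ∑ U ∈ I, (∑ v : U → Fin (P ^ 16), Real.sqrt ((cyl U v (C U)).card)) *
        (1 / (4 * (P : ℝ) ^ 7)) ^ U.card := by
      refine Finset.sum_nonneg ?_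
      intro U _
      exact mul_nonneg (Finset.sum_nonneg fun _ _ => Real.sqrt_nonneg _) (by positivity)
    linarith
  · rw [hkk]
    simp only
    rw [← Finset.mul_sum, ← mul_add]
    have h1 : ∑ U ∈ I, (1 / (64 * (N : ℝ) * z)) ^ U.card ≤ 1 / (32 * z) := by
      refine (Finset.sum_le_sum_of_subset_of_nonneg hIsub ?_).trans hs2
      intro U _ _
      positivity
    have h2 : (1 - 1 / (32 * (z : ℝ))) + ∑ U ∈ I, (1 / (64 * (N : ℝ) * z)) ^ U.card ≤ 1 := by
      linarith
    calc _ ≤ st.ky s P z * 1 := mul_le_mul_of_nonneg_left h2 hky.le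
      _ = _ := mul_one _
  · rw [hmme]
    simp only
    rw [← Finset.mul_sum]
    have h1 : ∑ U ∈ I, (1 / (8 * (N : ℝ))) ^ U.card ≤ 1 / 7 := by
      refine (Finset.sum_le_sum_of_subset_of_nonneg hIsub ?_).trans hs1
      intro U _ _
      positivity
    nlinarith

end Pool.Agent.H36.CPX
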